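import Pool.Agent.Q86.FAlgRep

set_option autoImplicit false

open Set

namespace Pool.Agent.Results.MP_12dd5c_an.FadingSigns

open Pool.Agent.Q86.FAlg

/-- **Disproof.** There is an F-algebra `A` whose whole dual, hence also `AP(A)`, has a
topological left invariant mean, while `(F_n^A)` fails for every `n ≥ 1`, for real and for complex
locally convex spaces, even for sets `X` with convex sections `(x + H) ∩ X`. The same holds for
`(F_n)`. -/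
theorem result :
    ∃ (A M : Type) (_ : NonUnitalNormedRing A) (_ : NormedSpace ℂ A) (_ : IsScalarTower ℂ A A)
      (_ : SMulCommClass ℂ A A) (_ : CompleteSpace A) (_ : CStarAlgebra M)
      (Φ : M ≃ₗᵢ[ℂ] StrongDual ℂ A),
      IsFAlgebra Φ ∧ HasTLIM Φ univ ∧ HasTLIM Φ (AP A) ∧
      ∀ (𝕜 : Type) [RCLike 𝕜] (n : ℕ), 1 ≤ n →
        ¬ FA 𝕜 (P1 Φ) n ∧ ¬ FAc 𝕜 (P1 Φ) n ∧ ¬ FJ 𝕜 (P1 Φ) n ∧ ¬ FJc 𝕜 (P1 Φ) n := by
  obtain ⟨m, h1, h2, h3⟩ := tlim2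
  exact ⟨A2, Pool.Agent.Q86.L1N.M × Pool.Agent.Q86.L1N.M, inferInstance, inferInstance,
    inferInstance, inferInstance, inferInstance, inferInstance, Phi2, isF2, ⟨m, h1, h2, h3⟩,
    ⟨m, h1, h2, fun f _ a ha => h3 f (mem_univ _) a ha⟩,
    fun 𝕜 _ n hn => ⟨not_FA 𝕜 n hn, not_FAc 𝕜 n hn, not_FJ 𝕜 n hn, not_FJc 𝕜 n hn⟩⟩

end Pool.Agent.Results.MP_12dd5c_an.FadingSigns
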